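import Pool.Agent.P.MP_d4a912_an.WCR

set_option autoImplicit false

namespace Pool.Agent.P.MP_d4a912_an

open Filter Topology ZeroAtInfty

/-- Coordinate functionals on the renormed space. -/
noncomputable def ev (j : J) : X →L[ℝ] ℝ :=
  LinearMap.mkContinuous
    { toFun := fun x => toE x j
      map_add' := fun _ _ => rfl
      map_smul' := fun _ _ => rfl } 1
    (fun x => by rw [one_mul]; exact abs_le_NN (toE x) j)

theorem ev_apply (j : J) (x : X) : ev j x = toE x j := rfl

theorem ev_norm (j : J) : ‖ev j‖ ≤ 1 := LinearMap.mkContinuous_norm_le _ zero_le_one _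

/-- The star at the vertex `n + 1`, with an oscillating distinguished coordinate. -/
noncomputable def star (n : ℕ) (j : J) : ℝ :=
  if j = (0, 0) then (-1) ^ n / 2 else if j.1 = n + 1 ∨ j.2 = n + 1 then 1 else 0

/-- Finite truncations of the stars. -/
noncomputable def trunc (n k : ℕ) : E :=
  mk0 (fun j => if j.1 ≤ k ∧ j.2 ≤ k then star n j else 0) (by
    refine tendsto_const_nhds.congr' ?_
    rw [EventuallyEq, Filter.eventually_cofinite]
    refine ((Set.finite_Iic k).prod (Set.finite_Iic k)).subset ?_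
    intro j hj
    by_contra h
    apply hj
    have : ¬ (j.1 ≤ k ∧ j.2 ≤ k) := h
    simp only [if_neg this])

theorem trunc_apply (n k : ℕ) (j : J) :
    trunc n k j = if j.1 ≤ k ∧ j.2 ≤ k then star n j else 0 := rfl

theorem trunc_sq_le (n k : ℕ) (j : J) : (trunc n k j) ^ 2 ≤ (star n j) ^ 2 := by
  rw [trunc_apply]
  split_ifs
  · exact le_refl _
  · simp only [ne_eq, OfNat.ofNat_ne_zero, not_false_eq_true, zero_pow]
    exact sq_nonneg _

theorem trunc_tendsto (n : ℕ) (j : J) : Tendsto (fun k => trunc n k j) atTop (𝓝 (star n j)) := by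
  refine tendsto_const_nhds.congr' ?_
  filter_upwards [eventually_ge_atTop (max j.1 j.2)] with k hk
  rw [trunc_apply, if_pos ⟨le_trans (le_max_left _ _) hk, le_trans (le_max_right _ _) hk⟩]

theorem star_zero_sq (n : ℕ) : (star n (0, 0)) ^ 2 = 1 / 4 := by
  unfold star
  rw [if_pos rfl, div_pow, ← pow_mul, mul_comm n 2, pow_mul]
  norm_num

theorem star_sq_le (n : ℕ) (j : J) : (star n j) ^ 2 ≤ 1 := by
  by_cases h : j = (0, 0)
  · rw [h, star_zero_sq]; norm_num
  · unfold star
    rw [if_neg h]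
    split_ifs <;> norm_num

theorem star_sq_le' (n : ℕ) (j : J) (hj : ¬ (j.1 = n + 1 ∨ j.2 = n + 1)) :
    (star n j) ^ 2 ≤ 1 / 4 := by
  by_cases h : j = (0, 0)
  · rw [h, star_zero_sq]
  · unfold star
    rw [if_neg h, if_neg hj]
    norm_num

theorem RR_trunc (n k : ℕ) (g h : J) : RR g h (trunc n k) ≤ 1 + 1 / ((n : ℝ) + 1) := by
  have a1 := trunc_sq_le n k g
  have a2 := trunc_sq_le n k h
  have a3 := trunc_sq_le n k (0, 0)
  rw [star_zero_sq] at a3
  have hc := cc_pos g h
  have hc' := cc_le g h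
  have hn : (0 : ℝ) < 1 / ((n : ℝ) + 1) := by positivity
  have b1 := star_sq_le n g
  have b2 := star_sq_le n h
  have p1 := sq_nonneg (trunc n k g)
  have p2 := sq_nonneg (trunc n k h)
  have p3 := sq_nonneg (trunc n k (0, 0))
  unfold RR
  by_cases hg : g.1 = n + 1 ∨ g.2 = n + 1
  · by_cases hh : h.1 = n + 1 ∨ h.2 = n + 1
    · have hmx : n + 1 ≤ mx g h := by
        unfold mx
        split_ifs <;> omega
      have hmx' : (n : ℝ) + 1 ≤ mx g h := by exact_mod_cast hmx
      have hc2 : cc g h ≤ 1 / (4 * ((n : ℝ) + 1)) := by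
        unfold cc
        apply one_div_le_one_div_of_le
        · positivity
        · linarith
      have e : 1 / (4 * ((n : ℝ) + 1)) = (1 / 4) * (1 / ((n : ℝ) + 1)) := by
        field_simp
      rw [e] at hc2
      nlinarith
    · have b3 := star_sq_le' n h hh
      nlinarith
  · have b3 := star_sq_le' n g hg
    nlinarith

/-- The weight of the star. -/
noncomputable def tau (n : ℕ) : ℝ := ∑' j, ww j * (star n j) ^ 2

theorem tau_summable (n : ℕ) : Summable (fun j => ww j * (star n j) ^ 2) := by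
  refine Summable.of_nonneg_of_le (fun j => mul_nonneg (ww_nonneg j) (sq_nonneg _)) ?_ ww_summable
  intro j
  have := mul_le_mul_of_nonneg_left (star_sq_le n j) (ww_nonneg j)
  linarith

theorem tau_tendsto : Tendsto tau atTop (𝓝 0) := by
  have h : Tendsto tau atTop (𝓝 (∑' _j : J, (0 : ℝ))) := by
    unfold tau
    refine tendsto_tsum_of_dominated_convergence (bound := ww) ww_summable ?_ ?_
    · intro i
      by_cases hi : i = (0, 0)
      · subst hi
        simp only [ww_zero, zero_mul]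
        exact tendsto_const_nhds
      · refine tendsto_const_nhds.congr' ?_
        filter_upwards [eventually_ge_atTop (max i.1 i.2)] with n hn
        have h1 : ¬ (i.1 = n + 1 ∨ i.2 = n + 1) := by omega
        unfold star
        rw [if_neg hi, if_neg h1]
        simp
    · refine Eventually.of_forall (fun n i => ?_)
      rw [Real.norm_eq_abs, abs_of_nonneg (mul_nonneg (ww_nonneg i) (sq_nonneg _))]
      have := mul_le_mul_of_nonneg_left (star_sq_le n i) (ww_nonneg i)
      linarith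
  simpa using h

/-- Upper bound for the norms of the truncations. -/
noncomputable def rho (n : ℕ) : ℝ := Real.sqrt (1 + 1 / ((n : ℝ) + 1) + tau n)

theorem rho_tendsto : Tendsto rho atTop (𝓝 1) := by
  have h : Tendsto (fun n : ℕ => 1 + 1 / ((n : ℝ) + 1) + tau n) atTop (𝓝 (1 + 0 + 0)) :=
    (tendsto_const_nhds.add tendsto_one_div_add_atTop_nhds_zero_nat).add tau_tendsto
  have h2 := h.sqrt
  rw [add_zero, add_zero, Real.sqrt_one] at h2
  exact h2

theorem NN_trunc (n k : ℕ) : NN (trunc n k) ≤ rho n := by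
  apply Real.sqrt_le_sqrt
  have h1 : MM (trunc n k) ≤ 1 + 1 / ((n : ℝ) + 1) := MM_le _ _ (RR_trunc n k)
  have h2 : HH (trunc n k) ≤ tau n :=
    (HH_summable _).tsum_le_tsum
      (fun j => mul_le_mul_of_nonneg_left (trunc_sq_le n k j) (ww_nonneg j)) (tau_summable n)
  linarith

theorem exists_F (n : ℕ) : ∃ F : (X →L[ℝ] ℝ) →L[ℝ] ℝ, ‖F‖ ≤ rho n ∧ ∀ j, F (ev j) = star n j := by
  let u : ℕ → X := fun k => toE.symm (trunc n k)
  have hu : ∀ k, ‖u k‖ ≤ rho n := fun k => NN_trunc n k
  have hρ : 0 ≤ rho n := Real.sqrt_nonneg _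
  obtain ⟨F, hF1, hF2⟩ := exists_bidual_limit u (rho n) hρ hu
    (weak_cauchy_X u (rho n + 1) (by linarith) (fun k => by linarith [hu k])
      (fun j => (trunc_tendsto n j).cauchySeq))
  exact ⟨F, hF1, fun j => tendsto_nhds_unique (hF2 (ev j)) (trunc_tendsto n j)⟩

theorem norm_normalize {Y : Type} [NormedAddCommGroup Y] [NormedSpace ℝ Y]
    (F : Y →L[ℝ] ℝ) (hpos : 0 < ‖F‖) : ‖‖F‖⁻¹ • F‖ = 1 := by
  have := norm_smul (‖F‖⁻¹) F
  rw [this, Real.norm_eq_abs, abs_of_pos (inv_pos.mpr hpos), inv_mul_cancel₀ hpos.ne']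

theorem not_wstar :
    ¬ (∀ F : ℕ → ((X →L[ℝ] ℝ) →L[ℝ] ℝ), (∀ n, ‖F n‖ = 1) →
        Tendsto (fun p : ℕ × ℕ => ‖F p.1 + F p.2‖) atTop (𝓝 2) →
        ∀ f : X →L[ℝ] ℝ, CauchySeq (fun n => F n f)) := by
  intro hcon
  choose F hF1 hF2 using exists_F
  have happ : ∀ (G : (X →L[ℝ] ℝ) →L[ℝ] ℝ) (j : J), G (ev j) ≤ ‖G‖ := by
    intro G j
    refine le_trans (le_abs_self _) (le_trans (G.le_opNorm (ev j)) ?_)
    have := mul_le_mul_of_nonneg_left (ev_norm j) (norm_nonneg G)
    linarith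
  have hs1 : ∀ n m : ℕ, star n (n + 1, m + 1) = 1 := by
    intro n m
    unfold star
    simp
  have hs2 : ∀ n m : ℕ, star m (n + 1, m + 1) = 1 := by
    intro n m
    unfold star
    simp
  have hge : ∀ n, 1 ≤ ‖F n‖ := by
    intro n
    have := happ (F n) (n + 1, n + 1)
    rwa [hF2, hs1] at this
  have hnorm : Tendsto (fun n => ‖F n‖) atTop (𝓝 1) :=
    tendsto_of_tendsto_of_tendsto_of_le_of_le tendsto_const_nhds rho_tendsto hge hF1
  have hinv : Tendsto (fun n => ‖F n‖⁻¹) atTop (𝓝 1) := by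
    simpa using hnorm.inv₀ one_ne_zero
  let G : ℕ → ((X →L[ℝ] ℝ) →L[ℝ] ℝ) := fun n => ‖F n‖⁻¹ • F n
  have hG1 : ∀ n, ‖G n‖ = 1 := by
    intro n
    have hpos : 0 < ‖F n‖ := lt_of_lt_of_le one_pos (hge n)
    exact norm_normalize (F n) hpos
  have hGev : ∀ n j, G n (ev j) = ‖F n‖⁻¹ * star n j := by
    intro n j
    rw [← hF2]
    rfl
  have hG2 : Tendsto (fun p : ℕ × ℕ => ‖G p.1 + G p.2‖) atTop (𝓝 2) := by
    have h1 : Tendsto (fun p : ℕ × ℕ => ‖F p.1‖⁻¹ + ‖F p.2‖⁻¹) atTop (𝓝 (1 + 1)) := by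
      rw [← prod_atTop_atTop_eq]
      exact (hinv.comp tendsto_fst).add (hinv.comp tendsto_snd)
    rw [one_add_one_eq_two] at h1
    refine tendsto_of_tendsto_of_tendsto_of_le_of_le h1 tendsto_const_nhds ?_ ?_
    · intro p
      have := happ (G p.1 + G p.2) (p.1 + 1, p.2 + 1)
      rw [add_apply, hGev, hGev, hs1, hs2, mul_one, mul_one] at this
      exact this
    · intro p
      have := norm_add_le (G p.1) (G p.2)
      rw [hG1, hG1, one_add_one_eq_two] at this
      exact this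
  have hc := hcon G hG1 hG2 (ev (0, 0))
  obtain ⟨N, hN⟩ := Metric.cauchySeq_iff.mp hc (1 / 2) (by norm_num)
  obtain ⟨N', hN'⟩ := eventually_atTop.mp
    (hinv.eventually (lt_mem_nhds (show (1 : ℝ) / 2 < 1 by norm_num)))
  set n := 2 * max N N' with hn
  have h1 := hN n (by omega) (n + 1) (by omega)
  have h2 := hN' n (by omega)
  have h3 := hN' (n + 1) (by omega)
  have e1 : star n (0, 0) = 1 / 2 := by
    unfold star
    rw [if_pos rfl, hn, pow_mul]
    norm_num
  have e2 : star (n + 1) (0, 0) = -(1 / 2) := by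
    unfold star
    rw [if_pos rfl, hn, pow_succ, pow_mul]
    norm_num
  rw [Real.dist_eq, hGev, hGev, e1, e2, abs_lt] at h1
  linarith [h1.2]

end Pool.Agent.P.MP_d4a912_an
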