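import Mathlib

set_option autoImplicit false

namespace Pool.Agent.P.MP_d4a912_an

open Filter Topology ZeroAtInfty

/-- The index set. -/
abbrev J : Type := ℕ × ℕ

/-- The space `c₀(ℕ × ℕ)` with the sup norm. -/
abbrev E : Type := C₀(J, ℝ)

theorem E_tendsto (x : E) : Tendsto (fun j => x j) cofinite (𝓝 0) := by
  have := x.zero_at_infty'
  rwa [cocompact_eq_cofinite] at this

/-- Build an element of `c₀` from a function tending to zero. -/
def mk0 (g : J → ℝ) (h : Tendsto g cofinite (𝓝 0)) : E where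
  toFun := g
  continuous_toFun := continuous_of_discreteTopology
  zero_at_infty' := by rwa [cocompact_eq_cofinite]

@[simp] theorem mk0_apply (g : J → ℝ) (h : Tendsto g cofinite (𝓝 0)) (j : J) :
    mk0 g h j = g j := rfl

theorem abs_le_norm (x : E) (j : J) : |x j| ≤ ‖x‖ := by
  rw [← ZeroAtInftyContinuousMap.norm_toBCF_eq_norm]
  exact x.toBCF.norm_coe_le_norm j

theorem norm_le_of (x : E) (C : ℝ) (hC : 0 ≤ C) (h : ∀ j, |x j| ≤ C) : ‖x‖ ≤ C := by
  rw [← ZeroAtInftyContinuousMap.norm_toBCF_eq_norm]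
  exact (BoundedContinuousFunction.norm_le hC).mpr h

theorem finite_big (x : E) (ε : ℝ) (hε : 0 < ε) : {j : J | ε ≤ |x j|}.Finite := by
  have h := (E_tendsto x).eventually (Metric.ball_mem_nhds 0 hε)
  rw [Filter.eventually_cofinite] at h
  refine h.subset ?_
  intro j hj
  simp only [Set.mem_ofPred_eq] at hj ⊢
  rw [Real.dist_eq, sub_zero, not_lt]
  exact hj

/-- Restriction of an element of `c₀` to a set of coordinates. -/
noncomputable def res (K : Set J) (x : E) : E :=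
  mk0 (K.indicator (fun j => x j)) (by
    refine squeeze_zero_norm (a := fun j => ‖x j‖) ?_ ?_
    · intro j
      exact norm_indicator_le_norm_self _ _
    · simpa using (E_tendsto x).norm)

theorem res_add (K : Set J) (x : E) : res K x + res Kᶜ x = x := by
  ext j
  simp [res, Set.indicator_self_add_compl_apply]

theorem small_off (g : E →L[ℝ] ℝ) (ε : ℝ) (hε : 0 < ε) :
    ∃ K : Set J, K.Finite ∧ ∀ (B : ℝ) (y : E), 0 < B → ‖y‖ ≤ B → (∀ j ∈ K, y j = 0) →
      |g y| ≤ B * ((‖g‖ + 1) * ε) := by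
  obtain ⟨y0, hy0, hgy0⟩ := g.exists_lt_apply_of_lt_opNorm (r := ‖g‖ - ε) (by linarith)
  refine ⟨{j : J | ε ≤ |y0 j|}, finite_big y0 ε hε, ?_⟩
  intro B y hB hy hK
  have key : ∀ s : ℝ, |s| = 1 → |B * g y0 + s * g y| ≤ ‖g‖ * (B * (1 + ε)) := by
    intro s hs
    have h1 : ‖B • y0 + s • y‖ ≤ B * (1 + ε) := by
      apply norm_le_of _ _ (by positivity)
      intro j
      have e : (B • y0 + s • y) j = B * y0 j + s * y j := rfl
      rw [e]
      have h2 : |y0 j| ≤ 1 := le_trans (abs_le_norm y0 j) hy0.le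
      have h3 : |y j| ≤ B := le_trans (abs_le_norm y j) hy
      have h4 : |B * y0 j + s * y j| ≤ B * |y0 j| + |y j| := by
        refine le_trans (abs_add_le _ _) ?_
        rw [abs_mul, abs_mul, hs, abs_of_pos hB, one_mul]
      by_cases hj : ε ≤ |y0 j|
      · rw [hK j hj] at h4 ⊢
        simp only [abs_zero, add_zero] at h4
        nlinarith [mul_pos hB hε]
      · push Not at hj
        nlinarith
    have h5 := g.le_opNorm (B • y0 + s • y)
    rw [map_add, map_smul, map_smul, smul_eq_mul, smul_eq_mul, Real.norm_eq_abs] at h5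
    exact le_trans h5 (mul_le_mul_of_nonneg_left h1 (norm_nonneg _))
  have k1 := key 1 (by simp)
  have k2 := key (-1) (by simp)
  rw [Real.norm_eq_abs] at hgy0
  have h6 : B * (‖g‖ - ε) ≤ B * |g y0| := mul_le_mul_of_nonneg_left hgy0.le hB.le
  have h7 : B * |g y0| + |g y| ≤ ‖g‖ * (B * (1 + ε)) := by
    have e : B * |g y0| = |B * g y0| := by rw [abs_mul, abs_of_pos hB]
    rw [e]
    rw [abs_le] at k1 k2
    rcases abs_cases (B * g y0) with h | h <;> rcases abs_cases (g y) with h' | h' <;>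
      linarith [k1.1, k1.2, k2.1, k2.2, h.1, h'.1]
  nlinarith

theorem weak_cauchy (g : E →L[ℝ] ℝ) (u : ℕ → E) (ρ : ℝ) (hρ : 0 < ρ) (hu : ∀ n, ‖u n‖ ≤ ρ)
    (hc : ∀ j, CauchySeq (fun n => u n j)) : CauchySeq (fun n => g (u n)) := by
  rw [Metric.cauchySeq_iff]
  intro ε hε
  set D : ℝ := ‖g‖ + 2 * ρ * (‖g‖ + 1) + 1 with hD
  have hDpos : 0 < D := by positivity
  set η : ℝ := ε / D with hη
  have hηpos : 0 < η := div_pos hε hDpos
  obtain ⟨K, hKfin, hK⟩ := small_off g η hηpos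
  have hev : ∀ j ∈ K, ∀ᶠ p : ℕ × ℕ in atTop, |u p.1 j - u p.2 j| < η := by
    intro j _
    obtain ⟨N, hN⟩ := Metric.cauchySeq_iff.mp (hc j) η hηpos
    filter_upwards [eventually_ge_atTop (N, N)] with p hp
    have := hN p.1 hp.1 p.2 hp.2
    rwa [Real.dist_eq] at this
  have hev2 := (Filter.eventually_all_finite hKfin).mpr hev
  obtain ⟨N, hN⟩ := eventually_atTop.mp hev2
  refine ⟨max N.1 N.2, ?_⟩
  intro m hm n hn
  have h1 := hN (m, n) ⟨le_trans (le_max_left _ _) hm, le_trans (le_max_right _ _) hn⟩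
  set d : E := u m - u n with hd
  have hdn : ‖d‖ ≤ 2 * ρ := by
    refine le_trans (norm_sub_le _ _) ?_
    linarith [hu m, hu n]
  have h2 : ‖res K d‖ ≤ η := by
    apply norm_le_of _ _ hηpos.le
    intro j
    simp only [res, mk0_apply]
    by_cases hj : j ∈ K
    · rw [Set.indicator_of_mem hj]
      exact (h1 j hj).le
    · rw [Set.indicator_of_notMem hj, abs_zero]
      exact hηpos.le
  have h3 : ‖res Kᶜ d‖ ≤ 2 * ρ := by
    apply norm_le_of _ _ (by positivity)
    intro j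
    simp only [res, mk0_apply]
    refine le_trans ?_ (le_trans (abs_le_norm d j) hdn)
    exact norm_indicator_le_norm_self (fun j => d j) j
  have h4 := hK (2 * ρ) (res Kᶜ d) (by positivity) h3 (by
    intro j hj
    simp only [res, mk0_apply]
    exact Set.indicator_of_notMem (by simpa using hj) _)
  have h5 : |g (res K d)| ≤ ‖g‖ * η :=
    le_trans (g.le_opNorm _) (mul_le_mul_of_nonneg_left h2 (norm_nonneg _))
  have h6 : g (u m) - g (u n) = g (res K d) + g (res Kᶜ d) := by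
    rw [← map_add, res_add, hd, map_sub]
  rw [Real.dist_eq, h6]
  have h7 : η * D = ε := div_mul_cancel₀ ε hDpos.ne'
  have h8 := abs_add_le (g (res K d)) (g (res Kᶜ d))
  rw [hD] at h7
  nlinarith

/-- A bounded weakly Cauchy sequence has a weak-star limit in the bidual. -/
theorem exists_bidual_limit {X : Type} [NormedAddCommGroup X] [NormedSpace ℝ X]
    (u : ℕ → X) (ρ : ℝ) (hρ : 0 ≤ ρ) (hu : ∀ n, ‖u n‖ ≤ ρ)
    (hc : ∀ f : X →L[ℝ] ℝ, CauchySeq (fun n => f (u n))) :
    ∃ F : (X →L[ℝ] ℝ) →L[ℝ] ℝ, ‖F‖ ≤ ρ ∧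
      ∀ f : X →L[ℝ] ℝ, Tendsto (fun n => f (u n)) atTop (𝓝 (F f)) := by
  choose L hL using fun f : X →L[ℝ] ℝ => cauchySeq_tendsto_of_complete (hc f)
  let F0 : (X →L[ℝ] ℝ) →ₗ[ℝ] ℝ :=
    { toFun := L
      map_add' := fun f g => tendsto_nhds_unique (hL (f + g)) ((hL f).add (hL g))
      map_smul' := fun a f => tendsto_nhds_unique (hL (a • f)) ((hL f).const_smul a) }
  have hb : ∀ f, ‖F0 f‖ ≤ ρ * ‖f‖ := by
    intro f
    refine le_of_tendsto' (hL f).norm ?_
    intro n
    refine le_trans (f.le_opNorm _) ?_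
    rw [mul_comm]
    exact mul_le_mul_of_nonneg_right (hu n) (norm_nonneg _)
  exact ⟨F0.mkContinuous ρ hb, LinearMap.mkContinuous_norm_le _ hρ _, hL⟩

end Pool.Agent.P.MP_d4a912_an
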