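import Pool.Agent.P.MP_d4a912_an.C0

set_option autoImplicit false

namespace Pool.Agent.P.MP_d4a912_an

open Filter Topology ZeroAtInfty

/-- The largest common vertex of two edges (zero if there is none). -/
def mx (g h : J) : ℕ :=
  max (if g.1 = h.1 ∨ g.1 = h.2 then g.1 else 0) (if g.2 = h.1 ∨ g.2 = h.2 then g.2 else 0)

/-- The convexity constant attached to a pair of edges. -/
noncomputable def cc (g h : J) : ℝ := 1 / (4 * ((mx g h : ℝ) + 1))

theorem cc_pos (g h : J) : 0 < cc g h := by unfold cc; positivity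

theorem cc_le (g h : J) : cc g h ≤ 1 / 4 := by
  unfold cc
  have : (0 : ℝ) ≤ mx g h := Nat.cast_nonneg _
  apply one_div_le_one_div_of_le <;> linarith

/-- Summable weights, positive off the coordinate `(0, 0)`. -/
noncomputable def ww (j : J) : ℝ := if j = (0, 0) then 0 else (1 / 2) ^ j.1 * (1 / 2) ^ j.2

theorem ww_nonneg (j : J) : 0 ≤ ww j := by
  unfold ww; split_ifs <;> positivity

theorem ww_pos (j : J) (hj : j ≠ (0, 0)) : 0 < ww j := by
  unfold ww; rw [if_neg hj]; positivity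

theorem ww_zero : ww (0, 0) = 0 := by simp [ww]

theorem ww_summable : Summable ww := by
  have h : Summable (fun j : J => ((1 : ℝ) / 2) ^ j.1 * (1 / 2) ^ j.2) :=
    Summable.mul_of_nonneg (f := fun n : ℕ => ((1 : ℝ) / 2) ^ n) (g := fun n : ℕ => ((1 : ℝ) / 2) ^ n)
      summable_geometric_two summable_geometric_two
      (fun n => by positivity) (fun n => by positivity)
  refine Summable.of_nonneg_of_le ww_nonneg ?_ h
  intro j
  unfold ww; split_ifs
  · positivity
  · exact le_refl _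

/-- The Hilbertian part. -/
noncomputable def HH (x : E) : ℝ := ∑' j, ww j * (x j) ^ 2

/-- The quadratic form attached to a pair of edges. -/
noncomputable def RR (g h : J) (x : E) : ℝ :=
  (1 + cc g h) * ((x g) ^ 2 + (x h) ^ 2) / 2 + cc g h * (x (0, 0)) ^ 2

/-- The sup part. -/
noncomputable def MM (x : E) : ℝ := ⨆ p : J × J, RR p.1 p.2 x

/-- The new norm. -/
noncomputable def NN (x : E) : ℝ := Real.sqrt (MM x + HH x)

theorem sq_le_norm_sq (x : E) (j : J) : (x j) ^ 2 ≤ ‖x‖ ^ 2 := by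
  rw [← sq_abs]
  exact pow_le_pow_left₀ (abs_nonneg _) (abs_le_norm x j) 2

theorem HH_summable (x : E) : Summable (fun j => ww j * (x j) ^ 2) := by
  refine Summable.of_nonneg_of_le (fun j => mul_nonneg (ww_nonneg j) (sq_nonneg _)) ?_
    (ww_summable.mul_right (‖x‖ ^ 2))
  intro j
  exact mul_le_mul_of_nonneg_left (sq_le_norm_sq x j) (ww_nonneg j)

theorem HH_nonneg (x : E) : 0 ≤ HH x :=
  tsum_nonneg (fun j => mul_nonneg (ww_nonneg j) (sq_nonneg _))

theorem HH_le_of (x : E) (C : ℝ) (h : ∀ j, (x j) ^ 2 ≤ C) : HH x ≤ (∑' j, ww j) * C := by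
  rw [← tsum_mul_right]
  exact (HH_summable x).tsum_le_tsum
    (fun j => mul_le_mul_of_nonneg_left (h j) (ww_nonneg j)) (ww_summable.mul_right C)

theorem le_HH (x : E) (j : J) : ww j * (x j) ^ 2 ≤ HH x :=
  (HH_summable x).le_tsum j (fun i _ => mul_nonneg (ww_nonneg i) (sq_nonneg _))

theorem HH_par (x y : E) : HH (x + y) + HH (x - y) = 2 * HH x + 2 * HH y := by
  unfold HH
  rw [← (HH_summable (x + y)).tsum_add (HH_summable (x - y)), ← tsum_mul_left, ← tsum_mul_left,
    ← ((HH_summable x).mul_left 2).tsum_add ((HH_summable y).mul_left 2)]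
  congr 1
  ext j
  have e1 : (x + y) j = x j + y j := rfl
  have e2 : (x - y) j = x j - y j := rfl
  rw [e1, e2]; ring

theorem HH_smul (a : ℝ) (x : E) : HH (a • x) = a ^ 2 * HH x := by
  unfold HH
  rw [← tsum_mul_left]
  congr 1
  ext j
  have e1 : (a • x) j = a * x j := rfl
  rw [e1]; ring

theorem sq_add_le (a b l : ℝ) (hl : 0 < l) :
    (a + b) ^ 2 ≤ (1 + l) * a ^ 2 + (1 + 1 / l) * b ^ 2 := by
  have h : (1 + l) * a ^ 2 + (1 + 1 / l) * b ^ 2 - (a + b) ^ 2 = (l * a - b) ^ 2 / l := by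
    field_simp; ring
  have : 0 ≤ (l * a - b) ^ 2 / l := by positivity
  linarith

theorem HH_add_le (x y : E) (l : ℝ) (hl : 0 < l) :
    HH (x + y) ≤ (1 + l) * HH x + (1 + 1 / l) * HH y := by
  unfold HH
  rw [← tsum_mul_left, ← tsum_mul_left,
    ← ((HH_summable x).mul_left _).tsum_add ((HH_summable y).mul_left _)]
  refine (HH_summable (x + y)).tsum_le_tsum ?_
    (((HH_summable x).mul_left _).add ((HH_summable y).mul_left _))
  intro j
  have e1 : (x + y) j = x j + y j := rfl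
  rw [e1]
  have := mul_le_mul_of_nonneg_left (sq_add_le (x j) (y j) l hl) (ww_nonneg j)
  linarith

theorem RR_nonneg (g h : J) (x : E) : 0 ≤ RR g h x := by
  unfold RR
  have := cc_pos g h
  positivity

theorem RR_le_of (g h : J) (x : E) (C : ℝ) (hC : ∀ j, (x j) ^ 2 ≤ C) : RR g h x ≤ 3 / 2 * C := by
  unfold RR
  have h1 := cc_pos g h
  have h2 := cc_le g h
  have h3 := hC g
  have h4 := hC h
  have h5 := hC (0, 0)
  have h6 : 0 ≤ C := le_trans (sq_nonneg _) h3
  nlinarith [sq_nonneg (x g), sq_nonneg (x h), sq_nonneg (x (0, 0))]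

theorem RR_bdd (x : E) : BddAbove (Set.range (fun p : J × J => RR p.1 p.2 x)) := by
  refine ⟨3 / 2 * ‖x‖ ^ 2, ?_⟩
  rintro _ ⟨p, rfl⟩
  exact RR_le_of _ _ x _ (sq_le_norm_sq x)

theorem RR_le_MM (g h : J) (x : E) : RR g h x ≤ MM x :=
  le_ciSup (RR_bdd x) (g, h)

theorem MM_le (x : E) (C : ℝ) (hC : ∀ g h, RR g h x ≤ C) : MM x ≤ C :=
  ciSup_le (fun p => hC p.1 p.2)

theorem MM_nonneg (x : E) : 0 ≤ MM x :=
  le_trans (RR_nonneg (0, 0) (0, 0) x) (RR_le_MM _ _ x)

theorem sq_le_MM (x : E) (j : J) : (x j) ^ 2 ≤ MM x := by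
  refine le_trans ?_ (RR_le_MM j j x)
  unfold RR
  have h1 := cc_pos j j
  nlinarith [sq_nonneg (x j), sq_nonneg (x (0, 0))]

theorem exists_RR (x : E) (a : ℝ) (ha : a < MM x) : ∃ g h, a < RR g h x := by
  obtain ⟨p, hp⟩ := exists_lt_of_lt_ciSup ha
  exact ⟨p.1, p.2, hp⟩

theorem RR_par (g h : J) (x y : E) :
    RR g h (x + y) + RR g h (x - y) = 2 * RR g h x + 2 * RR g h y := by
  unfold RR
  have e1 : ∀ j, (x + y) j = x j + y j := fun _ => rfl
  have e2 : ∀ j, (x - y) j = x j - y j := fun _ => rfl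
  simp only [e1, e2]; ring

theorem RR_smul (g h : J) (a : ℝ) (x : E) : RR g h (a • x) = a ^ 2 * RR g h x := by
  unfold RR
  have e1 : ∀ j, (a • x) j = a * x j := fun _ => rfl
  simp only [e1]; ring

theorem MM_smul (a : ℝ) (x : E) : MM (a • x) = a ^ 2 * MM x := by
  unfold MM
  simp only [RR_smul]
  rw [Real.mul_iSup_of_nonneg (sq_nonneg a)]

theorem MM_add_le (x y : E) (l : ℝ) (hl : 0 < l) :
    MM (x + y) ≤ (1 + l) * MM x + (1 + 1 / l) * MM y := by
  apply MM_le
  intro g h
  have h1 := RR_le_MM g h x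
  have h2 := RR_le_MM g h y
  have h3 : RR g h (x + y) ≤ (1 + l) * RR g h x + (1 + 1 / l) * RR g h y := by
    unfold RR
    have e1 : ∀ j, (x + y) j = x j + y j := fun _ => rfl
    simp only [e1]
    have hc := cc_pos g h
    have a1 := mul_le_mul_of_nonneg_left (sq_add_le (x g) (y g) l hl)
      (show 0 ≤ (1 + cc g h) / 2 by positivity)
    have a2 := mul_le_mul_of_nonneg_left (sq_add_le (x h) (y h) l hl)
      (show 0 ≤ (1 + cc g h) / 2 by positivity)
    have a3 := mul_le_mul_of_nonneg_left (sq_add_le (x (0, 0)) (y (0, 0)) l hl) hc.le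
    linarith
  have h4 := mul_le_mul_of_nonneg_left h1 (show 0 ≤ 1 + l by positivity)
  have h5 := mul_le_mul_of_nonneg_left h2 (show 0 ≤ 1 + 1 / l by positivity)
  linarith

theorem NN_nonneg (x : E) : 0 ≤ NN x := Real.sqrt_nonneg _

theorem NN_sq (x : E) : NN x ^ 2 = MM x + HH x :=
  Real.sq_sqrt (add_nonneg (MM_nonneg x) (HH_nonneg x))

theorem NN_smul (a : ℝ) (x : E) : NN (a • x) = |a| * NN x := by
  unfold NN
  rw [MM_smul, HH_smul, ← mul_add, Real.sqrt_mul (sq_nonneg a), Real.sqrt_sq_eq_abs]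

theorem abs_le_NN (x : E) (j : J) : |x j| ≤ NN x := by
  apply Real.le_sqrt_of_sq_le
  rw [sq_abs]
  linarith [sq_le_MM x j, HH_nonneg x]

theorem norm_le_NN (x : E) : ‖x‖ ≤ NN x := norm_le_of x _ (NN_nonneg x) (abs_le_NN x)

theorem NN_le_norm (x : E) : NN x ≤ Real.sqrt (3 / 2 + ∑' j, ww j) * ‖x‖ := by
  have hW : 0 ≤ ∑' j, ww j := tsum_nonneg ww_nonneg
  unfold NN
  rw [← Real.sqrt_sq (norm_nonneg x), ← Real.sqrt_mul (by positivity)]
  apply Real.sqrt_le_sqrt
  have h1 : MM x ≤ 3 / 2 * ‖x‖ ^ 2 := MM_le x _ (fun g h => RR_le_of g h x _ (sq_le_norm_sq x))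
  have h2 := HH_le_of x _ (sq_le_norm_sq x)
  linarith

theorem NN_eq_zero (x : E) : NN x = 0 ↔ x = 0 := by
  constructor
  · intro h
    have := norm_le_NN x
    rw [h] at this
    exact norm_le_zero_iff.mp this
  · rintro rfl
    have := NN_le_norm 0
    rw [norm_zero, mul_zero] at this
    exact le_antisymm this (NN_nonneg _)

theorem NN_add_le (x y : E) : NN (x + y) ≤ NN x + NN y := by
  by_cases hx : x = 0
  · subst hx
    rw [zero_add]
    linarith [NN_nonneg 0]
  by_cases hy : y = 0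
  · subst hy
    rw [add_zero]
    linarith [NN_nonneg 0]
  have hx' : 0 < NN x := lt_of_le_of_ne (NN_nonneg x) (fun h => hx ((NN_eq_zero x).mp h.symm))
  have hy' : 0 < NN y := lt_of_le_of_ne (NN_nonneg y) (fun h => hy ((NN_eq_zero y).mp h.symm))
  have hl : 0 < NN y / NN x := div_pos hy' hx'
  have h1 := MM_add_le x y _ hl
  have h2 := HH_add_le x y _ hl
  have h3 : NN (x + y) ^ 2 ≤ (1 + NN y / NN x) * NN x ^ 2 + (1 + 1 / (NN y / NN x)) * NN y ^ 2 := by
    rw [NN_sq, NN_sq, NN_sq]; linarith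
  have h4 : (1 + NN y / NN x) * NN x ^ 2 + (1 + 1 / (NN y / NN x)) * NN y ^ 2
      = (NN x + NN y) ^ 2 := by
    field_simp; ring
  rw [h4] at h3
  exact (pow_le_pow_iff_left₀ (NN_nonneg _) (by positivity) (by norm_num)).mp h3

/-- The renormed space. -/
def X : Type := E

noncomputable instance : AddCommGroup X := inferInstanceAs (AddCommGroup E)
noncomputable instance : Module ℝ X := inferInstanceAs (Module ℝ E)

/-- The identity, as a linear equivalence. -/
def toE : X ≃ₗ[ℝ] E := LinearEquiv.refl ℝ E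

noncomputable instance : Norm X := ⟨fun x => NN (toE x)⟩

theorem core : NormedSpace.Core ℝ X where
  norm_nonneg x := NN_nonneg _
  norm_smul a x := NN_smul a (toE x)
  norm_triangle x y := NN_add_le (toE x) (toE y)
  norm_eq_zero_iff x := NN_eq_zero (toE x)

noncomputable instance : NormedAddCommGroup X := NormedAddCommGroup.ofCore core
noncomputable instance : NormedSpace ℝ X := NormedSpace.ofCore core

theorem norm_X (x : X) : ‖x‖ = NN (toE x) := rfl

/-- The identity, as a continuous linear equivalence. -/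
noncomputable def toEL : X ≃L[ℝ] E :=
  toE.toContinuousLinearEquivOfBounds 1 (Real.sqrt (3 / 2 + ∑' j, ww j))
    (fun x => by rw [one_mul]; exact norm_le_NN _) (fun y => NN_le_norm y)

theorem toEL_apply (x : X) : toEL x = toE x := rfl

instance : CompleteSpace X :=
  (completeSpace_congr (e := toEL.toLinearEquiv.toEquiv) toEL.isUniformEmbedding).mpr inferInstance

end Pool.Agent.P.MP_d4a912_an
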