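import Pool.Agent.P.MP_d4a912_an.Norm

set_option autoImplicit false

namespace Pool.Agent.P.MP_d4a912_an

open Filter Topology ZeroAtInfty

theorem par_key (x y : E) (hx : NN x = 1) (hy : NN y = 1) (η : ℝ)
    (h : 4 - η < NN (x + y) ^ 2) :
    ∃ g k : J, HH (x - y) < η ∧ cc g k * (x (0, 0) - y (0, 0)) ^ 2 < η ∧
      MM x - η / 2 < RR g k x ∧ MM y - η / 2 < RR g k y := by
  rw [NN_sq] at h
  obtain ⟨g, k, hgk⟩ := exists_RR (x + y) (4 - η - HH (x + y)) (by linarith)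
  have hx2 := NN_sq x
  have hy2 := NN_sq y
  rw [hx] at hx2
  rw [hy] at hy2
  have p1 := RR_par g k x y
  have p2 := HH_par x y
  have a1 := RR_le_MM g k x
  have a2 := RR_le_MM g k y
  have a3 := RR_nonneg g k (x - y)
  have a4 := HH_nonneg (x - y)
  have a5 : cc g k * (x (0, 0) - y (0, 0)) ^ 2 ≤ RR g k (x - y) := by
    unfold RR
    have e2 : (x - y) (0, 0) = x (0, 0) - y (0, 0) := rfl
    rw [e2]
    have := cc_pos g k
    have : 0 ≤ (1 + cc g k) * (((x - y) g) ^ 2 + ((x - y) k) ^ 2) / 2 := by positivity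
    linarith
  refine ⟨g, k, ?_, ?_, ?_, ?_⟩ <;> linarith

theorem coord_big (x : E) (hx : NN x = 1) (g k : J) (η : ℝ) (h : MM x - η / 2 < RR g k x) :
    MM x - η - 4 * cc g k < (x g) ^ 2 := by
  have hx2 := NN_sq x
  rw [hx] at hx2
  have hM : MM x ≤ 1 := by linarith [HH_nonneg x]
  have b1 := sq_le_MM x g
  have b2 := sq_le_MM x k
  have b3 := sq_le_MM x (0, 0)
  have hc := cc_pos g k
  unfold RR at h
  have c1 : cc g k * (x g) ^ 2 ≤ cc g k := by nlinarith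
  have c2 : cc g k * (x k) ^ 2 ≤ cc g k := by nlinarith
  have c3 : cc g k * (x (0, 0)) ^ 2 ≤ cc g k := by nlinarith
  nlinarith

theorem mx_le_max (g k : J) : mx g k ≤ max g.1 g.2 := by
  unfold mx
  split_ifs <;> omega

theorem lt_mx_of_cc (g k : J) (P : ℕ) (h : cc g k < 1 / (4 * ((P : ℝ) + 1))) : P < mx g k := by
  by_contra hc
  push Not at hc
  have h1 : (mx g k : ℝ) ≤ P := by exact_mod_cast hc
  have h2 : (0 : ℝ) ≤ mx g k := Nat.cast_nonneg _
  have : 1 / (4 * ((P : ℝ) + 1)) ≤ cc g k := by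
    unfold cc
    apply one_div_le_one_div_of_le <;> linarith
  linarith

theorem cc_ge_of_mx (g k : J) (P : ℕ) (hc : mx g k ≤ P) : 1 / (4 * ((P : ℝ) + 1)) ≤ cc g k := by
  by_contra h
  push Not at h
  have := lt_mx_of_cc g k P h
  omega

/-- The combinatorial heart: stars and matchings. -/
theorem comb (S : ℝ → J → Prop) (hmono : ∀ ε ε' g, ε ≤ ε' → S ε g → S ε' g)
    (hS : ∀ ε, 0 < ε → ∀ P : ℕ, ∃ g : J, P < max g.1 g.2 ∧ S ε g) :
    ∃ P : ℕ, ∀ ε, 0 < ε → ∃ g k : J, g ≠ (0, 0) ∧ k ≠ (0, 0) ∧ S ε g ∧ S ε k ∧ mx g k ≤ P := by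
  by_contra hcon
  push Not at hcon
  have hne : ∀ (g : J) (P : ℕ), P < max g.1 g.2 → g ≠ (0, 0) := by
    rintro g P h rfl
    simp at h
  obtain ⟨ε0, hε0, h0⟩ := hcon 0
  obtain ⟨g0, hg0, hSg0⟩ := hS ε0 hε0 0
  obtain ⟨ε1, hε1, h1⟩ := hcon (max g0.1 g0.2)
  obtain ⟨g, hg, hSg⟩ := hS ε1 hε1 (max g0.1 g0.2)
  obtain ⟨k, hk, hSk⟩ := hS (min ε0 ε1) (lt_min hε0 hε1) (max g.1 g.2)
  have a1 := h1 g k (hne _ _ hg) (hne _ _ hk) hSg (hmono _ _ _ (min_le_right _ _) hSk)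
  have a2 := h0 g0 k (hne _ _ hg0) (hne _ _ hk) hSg0 (hmono _ _ _ (min_le_left _ _) hSk)
  unfold mx at a1 a2
  split_ifs at a1 a2 <;> omega

theorem wcr_coord (x : ℕ → E) (hx : ∀ n, NN (x n) = 1)
    (hlim : Tendsto (fun p : ℕ × ℕ => NN (x p.1 + x p.2)) atTop (𝓝 2)) (j : J) :
    CauchySeq (fun n => x n j) := by
  have hev : ∀ η : ℝ, 0 < η → ∃ N : ℕ, ∀ n, N ≤ n → ∀ m, N ≤ m →
      4 - η < NN (x n + x m) ^ 2 := by
    intro η hη
    have h1 : Tendsto (fun p : ℕ × ℕ => NN (x p.1 + x p.2) ^ 2) atTop (𝓝 (2 ^ 2)) := hlim.pow 2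
    have h2 := h1.eventually (lt_mem_nhds (show 4 - η < 2 ^ 2 by linarith))
    obtain ⟨N, hN⟩ := eventually_atTop.mp h2
    refine ⟨max N.1 N.2, fun n hn m hm => ?_⟩
    exact hN (n, m) ⟨le_trans (le_max_left _ _) hn, le_trans (le_max_right _ _) hm⟩
  have hoff : ∀ i : J, i ≠ (0, 0) → CauchySeq (fun n => x n i) := by
    intro i hi
    rw [Metric.cauchySeq_iff]
    intro ε hε
    have hw := ww_pos i hi
    obtain ⟨N, hN⟩ := hev (ww i * ε ^ 2) (by positivity)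
    refine ⟨N, fun n hn m hm => ?_⟩
    obtain ⟨g, k, h1, -⟩ := par_key (x n) (x m) (hx n) (hx m) _ (hN n hn m hm)
    have h2 := le_HH (x n - x m) i
    have e2 : (x n - x m) i = x n i - x m i := rfl
    rw [e2] at h2
    have h3 : (x n i - x m i) ^ 2 < ε ^ 2 := lt_of_mul_lt_mul_left (lt_of_le_of_lt h2 h1) hw.le
    rw [Real.dist_eq]
    exact abs_lt_of_sq_lt_sq h3 hε.le
  by_cases hj : j ≠ (0, 0)
  · exact hoff j hj
  push Not at hj
  subst hj
  by_contra hnc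
  -- the distinguished coordinate oscillates
  have hosc : ∃ δ : ℝ, 0 < δ ∧ ∀ n N : ℕ, ∃ m, N ≤ m ∧ δ ≤ |x n (0, 0) - x m (0, 0)| := by
    rw [Metric.cauchySeq_iff] at hnc
    push Not at hnc
    obtain ⟨ε, hε, h⟩ := hnc
    refine ⟨ε / 2, by positivity, fun n N => ?_⟩
    obtain ⟨a, ha, b, hb, hab⟩ := h N
    rw [Real.dist_eq] at hab
    by_cases h1 : ε / 2 ≤ |x n (0, 0) - x a (0, 0)|
    · exact ⟨a, ha, h1⟩
    · refine ⟨b, hb, ?_⟩
      push Not at h1
      have := abs_sub_le (x a (0, 0)) (x n (0, 0)) (x b (0, 0))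
      rw [abs_sub_comm (x a (0, 0)) (x n (0, 0))] at this
      linarith
  obtain ⟨δ, hδ, hosc⟩ := hosc
  have hYex : ∀ i : J, ∃ y : ℝ, i ≠ (0, 0) → Tendsto (fun n => x n i) atTop (𝓝 y) := by
    intro i
    by_cases hi : i ≠ (0, 0)
    · obtain ⟨y, hy⟩ := cauchySeq_tendsto_of_complete (hoff i hi)
      exact ⟨y, fun _ => hy⟩
    · exact ⟨0, fun h => absurd h hi⟩
  choose Y hY using hYex
  have hM1 : ∀ n, MM (x n) + HH (x n) = 1 := by
    intro n
    rw [← NN_sq, hx n]; norm_num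
  have hsq1 : ∀ n i, (x n i) ^ 2 ≤ 1 := by
    intro n i
    linarith [sq_le_MM (x n) i, HH_nonneg (x n), hM1 n]
  have hH : Tendsto (fun n => HH (x n)) atTop (𝓝 (∑' i, ww i * (Y i) ^ 2)) := by
    unfold HH
    refine tendsto_tsum_of_dominated_convergence (bound := ww) ww_summable ?_ ?_
    · intro i
      by_cases hi : i = (0, 0)
      · subst hi
        simp only [ww_zero, zero_mul]
        exact tendsto_const_nhds
      · exact ((hY i hi).pow 2).const_mul _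
    · refine Eventually.of_forall (fun n i => ?_)
      rw [Real.norm_eq_abs, abs_of_nonneg (mul_nonneg (ww_nonneg i) (sq_nonneg _))]
      have := mul_le_mul_of_nonneg_left (hsq1 n i) (ww_nonneg i)
      linarith
  set r : ℝ := 1 - ∑' i, ww i * (Y i) ^ 2 with hr
  have hM : Tendsto (fun n => MM (x n)) atTop (𝓝 r) := by
    have e : (fun n => MM (x n)) = fun n => 1 - HH (x n) := by
      ext n; linarith [hM1 n]
    rw [e]
    exact hH.const_sub 1
  have hW : 0 ≤ ∑' j, ww j := tsum_nonneg ww_nonneg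
  have hrpos : 0 < r := by
    have h1 : 1 / (1 + ∑' j, ww j) ≤ r := by
      refine ge_of_tendsto' hM (fun n => ?_)
      have h2 := HH_le_of (x n) _ (sq_le_MM (x n))
      rw [div_le_iff₀ (by positivity)]
      linarith [hM1 n]
    exact lt_of_lt_of_le (by positivity) h1
  -- Claim 1
  have claim1' : ∀ ε : ℝ, 0 < ε → ε ≤ r / 2 → ∀ P : ℕ,
      ∃ g : J, P < max g.1 g.2 ∧ r - ε ≤ (Y g) ^ 2 := by
    intro ε hε hεr P
    set θ : ℝ := min (ε / 8) (1 / (4 * ((P : ℝ) + 1))) with hθ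
    have hθpos : 0 < θ := lt_min (by positivity) (by positivity)
    set η : ℝ := min (ε / 4) (θ * δ ^ 2) with hη
    have hηpos : 0 < η := lt_min (by positivity) (by positivity)
    obtain ⟨N1, hN1⟩ := hev η hηpos
    obtain ⟨N2, hN2⟩ := eventually_atTop.mp
      (hM.eventually (lt_mem_nhds (show r - ε / 4 < r by linarith)))
    set n := max N1 N2 with hn
    set K : Set J := {g | Real.sqrt (r - ε) ≤ |x n g|} ∩ {g | P < max g.1 g.2} with hK
    have hKfin : K.Finite :=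
      (finite_big (x n) _ (Real.sqrt_pos.mpr (by linarith))).subset Set.inter_subset_left
    have hfreq : ∀ N : ℕ, ∃ m, N ≤ m ∧ ∃ g ∈ K, r - ε ≤ (x m g) ^ 2 := by
      intro N
      obtain ⟨m, hm, hδm⟩ := hosc n (max N n)
      have hm1 : N1 ≤ m := le_trans (le_max_left _ _) (le_trans (le_max_right _ _) hm)
      have hm2 : N2 ≤ m := le_trans (le_max_right _ _) (le_trans (le_max_right _ _) hm)
      obtain ⟨g, k, -, h2, h3, h4⟩ := par_key (x n) (x m) (hx n) (hx m) η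
        (hN1 n (le_max_left _ _) m hm1)
      have hc := cc_pos g k
      have hd2 : δ ^ 2 ≤ (x n (0, 0) - x m (0, 0)) ^ 2 := by
        rw [← sq_abs (x n (0, 0) - x m (0, 0))]
        exact pow_le_pow_left₀ hδ.le hδm 2
      have hcθ : cc g k < θ := by
        have a1 : cc g k * δ ^ 2 < θ * δ ^ 2 :=
          lt_of_le_of_lt (mul_le_mul_of_nonneg_left hd2 hc.le)
            (lt_of_lt_of_le h2 (min_le_right _ _))
        exact lt_of_mul_lt_mul_right a1 (sq_nonneg δ)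
      have hc8 : cc g k < ε / 8 := lt_of_lt_of_le hcθ (min_le_left _ _)
      have hcP := lt_mx_of_cc g k P (lt_of_lt_of_le hcθ (min_le_right _ _))
      have hη4 : η ≤ ε / 4 := min_le_left _ _
      have b1 := coord_big (x n) (hx n) g k η h3
      have b2 := coord_big (x m) (hx m) g k η h4
      have b3 := hN2 n (le_max_right _ _)
      have b4 := hN2 m hm2
      refine ⟨m, le_trans (le_max_left _ _) hm, g, ⟨?_, ?_⟩, by linarith⟩
      · show Real.sqrt (r - ε) ≤ |x n g|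
        apply Real.sqrt_le_iff.mpr
        refine ⟨abs_nonneg _, ?_⟩
        rw [sq_abs]
        linarith
      · exact lt_of_lt_of_le hcP (mx_le_max g k)
    by_contra hcon
    push Not at hcon
    have hall : ∀ g ∈ K, ∀ᶠ m in atTop, (x m g) ^ 2 < r - ε := by
      intro g hg
      have hP : P < max g.1 g.2 := hg.2
      have hg0 : g ≠ (0, 0) := by
        rintro rfl
        simp at hP
      exact ((hY g hg0).pow 2).eventually (gt_mem_nhds (hcon g hP))
    obtain ⟨N, hN⟩ := eventually_atTop.mp ((Filter.eventually_all_finite hKfin).mpr hall)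
    obtain ⟨m, hm, g, hg, hgm⟩ := hfreq N
    linarith [hN m hm g hg]
  have claim1 : ∀ ε : ℝ, 0 < ε → ∀ P : ℕ, ∃ g : J, P < max g.1 g.2 ∧ r - ε ≤ (Y g) ^ 2 := by
    intro ε hε P
    obtain ⟨g, h1, h2⟩ := claim1' (min ε (r / 2)) (lt_min hε (by linarith)) (min_le_right _ _) P
    exact ⟨g, h1, by linarith [min_le_left ε (r / 2)]⟩
  -- Claim 2
  have claim2 : ∀ g k : J, g ≠ (0, 0) → k ≠ (0, 0) →
      (1 + cc g k) * ((Y g) ^ 2 + (Y k) ^ 2) / 2 ≤ r := by
    intro g k hg hk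
    have h1 : Tendsto (fun n => (1 + cc g k) * ((x n g) ^ 2 + (x n k) ^ 2) / 2) atTop
        (𝓝 ((1 + cc g k) * ((Y g) ^ 2 + (Y k) ^ 2) / 2)) :=
      ((((hY g hg).pow 2).add ((hY k hk).pow 2)).const_mul _).div_const 2
    refine le_of_tendsto_of_tendsto' h1 hM (fun n => ?_)
    refine le_trans ?_ (RR_le_MM g k (x n))
    unfold RR
    have := cc_pos g k
    have : 0 ≤ cc g k * (x n (0, 0)) ^ 2 := by positivity
    linarith
  obtain ⟨P, hP⟩ := comb (fun ε g => r - ε ≤ (Y g) ^ 2)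
    (fun ε ε' g h1 h2 => by linarith) claim1
  set c0 : ℝ := 1 / (4 * ((P : ℝ) + 1)) with hc0
  have hc0pos : 0 < c0 := by positivity
  obtain ⟨g, k, hg, hk, h1, h2, h3⟩ := hP (c0 * r / 2) (by positivity)
  have h4 := claim2 g k hg hk
  have h5 : c0 ≤ cc g k := cc_ge_of_mx g k P h3
  have h6 := cc_le g k
  have h7 : (1 + c0) * ((Y g) ^ 2 + (Y k) ^ 2) / 2 ≤ r := by
    have : c0 * ((Y g) ^ 2 + (Y k) ^ 2) ≤ cc g k * ((Y g) ^ 2 + (Y k) ^ 2) :=
      mul_le_mul_of_nonneg_right h5 (by positivity)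
    linarith
  have h8 : (1 + c0) * (2 * (r - c0 * r / 2)) ≤ (1 + c0) * ((Y g) ^ 2 + (Y k) ^ 2) :=
    mul_le_mul_of_nonneg_left (by linarith) (by positivity)
  have h9 : 0 < c0 * r * (1 - c0) := by
    have : 0 < 1 - c0 := by linarith
    positivity
  nlinarith

theorem weak_cauchy_X (u : ℕ → X) (ρ : ℝ) (hρ : 0 < ρ) (hu : ∀ n, ‖u n‖ ≤ ρ)
    (hc : ∀ j, CauchySeq (fun n => toE (u n) j)) (f : X →L[ℝ] ℝ) :
    CauchySeq (fun n => f (u n)) :=
  weak_cauchy (f.comp (toEL.symm : E →L[ℝ] X)) (fun n => toE (u n)) ρ hρ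
    (fun n => le_trans (norm_le_NN _) (hu n)) hc

theorem wcr (x : ℕ → X) (hx : ∀ n, ‖x n‖ = 1)
    (hlim : Tendsto (fun p : ℕ × ℕ => ‖x p.1 + x p.2‖) atTop (𝓝 2)) (f : X →L[ℝ] ℝ) :
    CauchySeq (fun n => f (x n)) :=
  weak_cauchy_X x 1 one_pos (fun n => (hx n).le)
    (wcr_coord (fun n => toE (x n)) hx hlim) f

end Pool.Agent.P.MP_d4a912_an
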